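import Pool.Agent.L0h15.OL.Ax

/-!
# Abel-Jacobi maps of smooth proper varieties over `ℚ`
-/

set_option autoImplicit false

namespace Pool.Agent.L0h15.AJ

open Pool.Agent.L0h15.OL (Sp Lin ap)

/-- the data -/
structure Theory where
  /-- the smooth proper varieties over `ℚ`, of pure dimension -/
  Var : Type
  /-- the dimension -/
  dim : Var → ℕ
  /-- the projective varieties -/
  Proj : Var → Prop
  /-- the geometrically connected varieties -/
  Conn : Var → Prop
  /-- `Ch X e` is the group of the homologically trivial cycles of dimension `e` on `X` (so it is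
  `CH^{dim X - e}(X)^0`) with rational coefficients -/
  Ch : Var → ℕ → Sp
  /-- the intermediate Jacobian `J^{dim X - e}(X_ℂ)` (the product over the components), with rational
  coefficients -/
  J : Var → ℕ → Sp
  /-- the Abel-Jacobi map -/
  aj : ∀ X e, Lin (Ch X e) (J X e)

namespace Theory

variable (T : Theory)

/-- the Abel-Jacobi map is injective up to torsion on the homologically trivial cycles of dimension
`e` -/
def Inj (X : T.Var) (e : ℕ) : Prop := ∀ z, ap (T.aj X e) z = 0 → z = 0

/-- the maps which are given by correspondences: a map of cycles and a compatible map of intermediate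
Jacobians -/
structure Map (X : T.Var) (e : ℕ) (Y : T.Var) (e' : ℕ) where
  /-- the map of cycles -/
  f : Lin (T.Ch X e) (T.Ch Y e')
  /-- the map of intermediate Jacobians -/
  f' : Lin (T.J X e) (T.J Y e')
  compat : ∀ z, ap (T.aj Y e') (ap f z) = ap f' (ap (T.aj X e) z)

/-- smooth hypersurface sections for an ample line bundle: `Y` is contained in `X`, with the direct
images -/
structure Sect (Y X : T.Var) (e : ℕ) extends T.Map Y e X e where
  projY : T.Proj Y
  dimY : T.dim Y + 1 = T.dim X
  connY : T.Conn X → T.Conn Y
  /-- the Lefschetz hyperplane theorem for the homology of degree `2 e + 1` -/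
  lefschetz : 2 * e + 1 < T.dim Y → ∀ t, ap f' t = 0 → t = 0

/-- the known properties -/
structure Known : Prop where
  /-- Chow's lemma and resolution of singularities: the inverse image is injective -/
  chow : ∀ X e, ∃ (Y : T.Var) (a : T.Map X e Y e), T.Proj Y ∧ T.dim Y = T.dim X ∧
    ∀ z, ap a.f z = 0 → z = 0
  /-- the product with a projective line: `z ↦ z × point` is injective -/
  line : ∀ X e, ∃ (Y : T.Var) (a : T.Map X e Y e), (T.Proj X → T.Proj Y) ∧ (T.Conn X → T.Conn Y) ∧
    T.dim Y = T.dim X + 1 ∧ ∀ z, ap a.f z = 0 → z = 0
  /-- Restriction of scalars: every component of `X` is a geometrically connected variety over a number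
  field `K`, and the inverse image to its Weil restriction `Y` (the cycle is taken on the base change to
  `K` and then on `Y`) is injective on homologically trivial cycles. -/
  weil : ∀ X e, T.Proj X → ∃ (n : ℕ) (Y : Fin n → T.Var) (e' : Fin n → ℕ)
    (a : ∀ j, T.Map X e (Y j) (e' j)), (∀ j, T.Proj (Y j) ∧ T.Conn (Y j)) ∧
    ∀ z, (∀ j, ap (a j).f z = 0) → z = 0
  /-- If `2 e + 1 < dim X`, then every homologically trivial cycle of dimension `e` is rationally
  equivalent, with rational coefficients, to a combination of disjoint smooth subvarieties (Kleiman),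
  which is contained in some smooth hypersurface section `Y` (Bertini's theorem). It is homologically
  trivial on `Y` by the Lefschetz hyperplane theorem for the homology of degree `2 e`. -/
  bertini : ∀ X e, T.Proj X → 2 * e + 1 < T.dim X → ∀ z : T.Ch X e,
    ∃ (Y : T.Var) (s : T.Sect Y X e) (z' : T.Ch Y e), ap s.f z' = z

end Theory

end Pool.Agent.L0h15.AJ
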