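import Pool.Agent.L0h15.AJ.Defs

/-!
# Reduction of the injectivity of Abel-Jacobi maps to the dimension `2 e + 2`
-/

set_option autoImplicit false

namespace Pool.Agent.L0h15.AJ

open Pool.Agent.L0h15.OL (Sp Lin ap)

namespace Theory

variable {T : Theory}

theorem ap_zero {V W : Sp} (f : Lin V W) : ap f (0 : V) = 0 :=
  map_zero (show V →ₗ[ℚ] W from f)

theorem inj_of_map {X Y : T.Var} {e e' : ℕ} (a : T.Map X e Y e') (h : T.Inj Y e')
    (ha : ∀ z, ap a.f z = 0 → z = 0) : T.Inj X e := by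
  intro z hz
  refine ha z (h _ ?_)
  rw [a.compat, hz, ap_zero]

/-- the reduction for projective varieties; `P` is a property of varieties such as geometric
connectedness -/
theorem inj_proj (hK : T.Known) (P : T.Var → Prop)
    (hline : ∀ X e, P X → ∃ (Y : T.Var) (a : T.Map X e Y e), (T.Proj X → T.Proj Y) ∧ P Y ∧
      T.dim Y = T.dim X + 1 ∧ ∀ z, ap a.f z = 0 → z = 0)
    (hsect : ∀ {Y X e}, T.Sect Y X e → P X → P Y) (e : ℕ)
    (hmid : ∀ X, T.Proj X → P X → T.dim X = 2 * e + 2 → T.Inj X e) :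
    ∀ X, T.Proj X → P X → T.Inj X e := by
  have hlarge : ∀ k : ℕ, ∀ X, T.Proj X → P X → T.dim X = 2 * e + 2 + k → T.Inj X e := by
    intro k
    induction k with
    | zero => exact hmid
    | succ k ih =>
      intro X hX hP hdim z hz
      obtain ⟨Y, s, z', rfl⟩ := hK.bertini X e hX (by omega) z
      have hY := s.dimY
      have h1 : ap (T.aj Y e) z' = 0 := by
        refine s.lefschetz (by omega) _ ?_
        rw [← s.compat]
        exact hz
      rw [ih Y s.projY (hsect s hP) (by omega) z' h1, ap_zero]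
  have hsmall : ∀ k : ℕ, ∀ X, T.Proj X → P X → T.dim X + k = 2 * e + 2 → T.Inj X e := by
    intro k
    induction k with
    | zero => intro X hX hP hdim; exact hmid X hX hP (by omega)
    | succ k ih =>
      intro X hX hP hdim
      obtain ⟨Y, a, h1, h2, h3, h4⟩ := hline X e hP
      exact inj_of_map a (ih Y (h1 hX) h2 (by omega)) h4
  intro X hX hP
  rcases le_total (T.dim X) (2 * e + 2) with h | h
  · exact hsmall (2 * e + 2 - T.dim X) X hX hP (by omega)
  · exact hlarge (T.dim X - (2 * e + 2)) X hX hP (by omega)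

/-- all varieties -/
theorem inj_all (hK : T.Known) (e : ℕ) (hmid : ∀ X, T.Proj X → T.dim X = 2 * e + 2 → T.Inj X e)
    (X : T.Var) : T.Inj X e := by
  obtain ⟨Y, a, hY, -, ha⟩ := hK.chow X e
  refine inj_of_map a ?_ ha
  refine inj_proj hK (fun _ => True) (fun X e _ => ?_) (fun _ _ => trivial) e
    (fun X hX _ hdim => hmid X hX hdim) Y hY trivial
  obtain ⟨Y, a, h1, -, h3, h4⟩ := hK.line X e
  exact ⟨Y, a, h1, trivial, h3, h4⟩

/-- geometrically connected projective varieties -/
theorem inj_conn (hK : T.Known) (e : ℕ)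
    (hmid : ∀ X, T.Proj X → T.Conn X → T.dim X = 2 * e + 2 → T.Inj X e) :
    ∀ X, T.Proj X → T.Conn X → T.Inj X e := by
  refine inj_proj hK T.Conn (fun X e hP => ?_) (fun s => s.connY) e hmid
  obtain ⟨Y, a, h1, h2, h3, h4⟩ := hK.line X e
  exact ⟨Y, a, h1, h2 hP, h3, h4⟩

/-- it is enough to consider geometrically connected projective varieties -/
theorem inj_weil (hK : T.Known) (h : ∀ X e, T.Proj X → T.Conn X → T.Inj X e) (X : T.Var) (e : ℕ) :
    T.Inj X e := by
  obtain ⟨Y, a, hY, -, ha⟩ := hK.chow X e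
  refine inj_of_map a ?_ ha
  intro z hz
  obtain ⟨n, Z, e', b, hZ, hb⟩ := hK.weil Y e hY
  refine hb z fun j => ?_
  refine h (Z j) (e' j) (hZ j).1 (hZ j).2 _ ?_
  rw [(b j).compat, hz, ap_zero]

end Theory

end Pool.Agent.L0h15.AJ
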